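import Mathlib
import Pool.Agent.H224R2.Mah.Defs

/-!
F1: the inequality for finite families, from E1, E2, C4, D2 (as hypotheses).

`F1_family` for the assembly:
```
theorem F1_family {n : ℕ} {P : Set ℂ} {S : ℕ → ℂ → ℝ} (hD : Dom P S) {κ : Type} [Fintype κ]
    (b : Fin n → Fin n → ℝ) (hb : (Matrix.of b).det ≠ 0) (c : κ → Fin n → ℝ)
    (L : Set (Fin n → ℝ)) (hL : Convex ℝ L) (hL0 : L.Nonempty) (hLs : ∀ v ∈ L, -v ∈ L)
    (hbL : ∀ j, b j ∈ L) (hcL : ∀ j, c j ∈ L) :
    ENNReal.ofReal (4 ^ n / n.factorial) ≤ volume (QQ (Sum.elim b c)) * volume L :=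
  F1_family_of hD b c L (fun c' a => E1_cauchyBinet c' a)
    (fun A B hA hB h0 hAB α β hβ hαβ hα hβ' R hR hRO =>
      E2_compare P hD.isOpen.measurableSet _ A B hA hB h0 hAB α β hβ hαβ hα hβ' R hR hRO)
    (fun _ hm => C4_complex hD b hb c hm)
    (fun m hm => D2_real hD _ (F1aux.span_top b hb c) L hL hL0 hLs
      (fun j => by rcases j with j | j; exacts [hbL j, hcL j]) m hm)
```
-/

namespace Pool.Agent.H224R2.Mah

open MeasureTheory Set Filter Topology
open scoped ENNReal RealInnerProductSpace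

namespace F1aux

theorem measurable_dx (S : ℂ → ℝ) : Measurable (dx S) := measurable_fderiv_apply_const ℝ S 1

theorem measurable_dy (S : ℂ → ℝ) : Measurable (dy S) :=
  measurable_fderiv_apply_const ℝ S Complex.I

theorem measurable_lap (S : ℂ → ℝ) : Measurable (lap S) :=
  (measurable_dx _).add (measurable_dy _)

section
variable {n : ℕ} {ι : Type} [Fintype ι]

theorem continuous_uu (a : Fin n → ℝ) : Continuous (uu a) := by
  unfold uu
  fun_prop

theorem isOpen_Om {P : Set ℂ} (hP : IsOpen P) (a : ι → Fin n → ℝ) : IsOpen (Om P a) := by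
  have : Om P a = ⋂ j, (uu (a j)) ⁻¹' P := by
    ext z
    simp [Om]
  rw [this]
  exact isOpen_iInter_of_finite fun j => hP.preimage (continuous_uu (a j))

theorem isOpen_R {P : Set ℂ} (hP : IsOpen P) (a : ι → Fin n → ℝ) (S : ι → ℂ → ℝ)
    (hS : ∀ j, ContinuousOn (S j) P) (t : ℝ) : IsOpen {z | z ∈ Om P a ∧ GG S a z < t} := by
  have hc : ContinuousOn (GG S a) (Om P a) := by
    unfold GG
    refine continuousOn_finsetSum _ fun j _ => ?_
    exact (hS j).comp (continuous_uu (a j)).continuousOn fun z hz => hz j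
  have := hc.isOpen_inter_preimage (isOpen_Om hP a) (isOpen_Iio (a := t))
  exact this

/-- monotonicity of the determinant in the coefficients -/
theorem det_mat_mono
    (hE1 : ∀ (c : ι → ℝ) (a : ι → Fin n → ℝ), (n.factorial : ℝ) * (mat c a).det =
      ∑ σ : Fin n → ι, (Matrix.of fun k => a (σ k)).det ^ 2 * ∏ k, c (σ k))
    (c c' : ι → ℝ) (a : ι → Fin n → ℝ) (h0 : ∀ j, 0 ≤ c j) (h : ∀ j, c j ≤ c' j) :
    (mat c a).det ≤ (mat c' a).det := by
  have hn : (0 : ℝ) < (n.factorial : ℝ) := by exact_mod_cast Nat.factorial_pos n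
  have h1 : (n.factorial : ℝ) * (mat c a).det ≤ (n.factorial : ℝ) * (mat c' a).det := by
    rw [hE1, hE1]
    refine Finset.sum_le_sum fun σ _ => ?_
    refine mul_le_mul_of_nonneg_left ?_ (by positivity)
    exact Finset.prod_le_prod (fun k _ => h0 _) fun k _ => h _
  exact le_of_mul_le_mul_left h1 hn

theorem det_mat_smul (r : ℝ) (c : ι → ℝ) (a : ι → Fin n → ℝ) :
    (mat (fun j => r * c j) a).det = r ^ n * (mat c a).det := by
  have : mat (fun j => r * c j) a = r • mat c a := by
    unfold mat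
    rw [Finset.smul_sum]
    refine Finset.sum_congr rfl fun j _ => ?_
    rw [smul_smul]
  rw [this, Matrix.det_smul, Fintype.card_fin]

end

theorem span_top {n : ℕ} {κ : Type} (b : Fin n → Fin n → ℝ) (hb : (Matrix.of b).det ≠ 0)
    (c : κ → Fin n → ℝ) : Submodule.span ℝ (Set.range (Sum.elim b c)) = ⊤ := by
  have hli : LinearIndependent ℝ b := by
    have := Matrix.linearIndependent_rows_iff_isUnit (A := Matrix.of b)
    rw [Matrix.isUnit_iff_isUnit_det, isUnit_iff_ne_zero] at this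
    exact this.2 hb
  have h1 : Submodule.span ℝ (Set.range b) = ⊤ := by
    apply hli.span_eq_top_of_card_eq_finrank'
    simp
  rw [eq_top_iff, ← h1]
  apply Submodule.span_mono
  rintro _ ⟨i, rfl⟩
  exact ⟨Sum.inl i, rfl⟩

end F1aux

open F1aux in
theorem F1_family_of {n : ℕ} {P : Set ℂ} {S : ℕ → ℂ → ℝ} (hD : Dom P S) {κ : Type} [Fintype κ]
    (b : Fin n → Fin n → ℝ) (c : κ → Fin n → ℝ)
    (L : Set (Fin n → ℝ))
    (hE1 : ∀ (c' : Fin n ⊕ κ → ℝ) (a : Fin n ⊕ κ → Fin n → ℝ),
      (n.factorial : ℝ) * (mat c' a).det =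
      ∑ σ : Fin n → Fin n ⊕ κ, (Matrix.of fun k => a (σ k)).det ^ 2 * ∏ k, c' (σ k))
    (hE2 : ∀ (A B : Fin n ⊕ κ → ℂ → ℝ),
      (∀ j, Measurable (A j)) → (∀ j, Measurable (B j)) →
      (∀ j, ∀ u ∈ P, 0 ≤ B j u) → (∀ j, ∀ u ∈ P, B j u ≤ A j u) →
      ∀ (α β : ℝ), 0 ≤ β → β ≤ α →
      (∀ j, ∫⁻ u in P, ENNReal.ofReal (A j u) = ENNReal.ofReal α) →
      (∀ j, ENNReal.ofReal β ≤ ∫⁻ u in P, ENNReal.ofReal (B j u)) →
      ∀ (R : Set (Fin n → ℂ)), MeasurableSet R → R ⊆ Om P (Sum.elim b c) →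
      ∫⁻ z in R, ENNReal.ofReal (MM A (Sum.elim b c) z).det ≤
        (∫⁻ z in R, ENNReal.ofReal (MM B (Sum.elim b c) z).det) +
          ENNReal.ofReal ((Fintype.card (Fin n → Fin n ⊕ κ)) * (α ^ n - β ^ n) / n.factorial))
    (hC4 : ∀ m : ℕ, 2 ≤ m → ENNReal.ofReal ((4 * Real.pi * m) ^ n / n.factorial) ≤
      VV P (Sum.elim (fun _ => S m) (fun _ => S (m + 1))) (Sum.elim b c) 1)
    (hD2 : ∀ m : Fin n ⊕ κ → ℕ, (∀ j, 2 ≤ m j) →
      ∫⁻ z in {z | z ∈ Om P (Sum.elim b c) ∧ GG (fun j => S (m j)) (Sum.elim b c) z < 1},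
        ENNReal.ofReal (MM (fun j u => |dx (S (m j)) u|) (Sum.elim b c) z).det ≤
          volume (QQ (Sum.elim b c)) * volume L) :
    ENNReal.ofReal (4 ^ n / n.factorial) ≤ volume (QQ (Sum.elim b c)) * volume L := by
  set I : ℕ → ℝ≥0∞ := fun m => ∫⁻ u in P, ENNReal.ofReal |dx (S m) u| with hI
  set β : ℕ → ℝ := fun m => min 4 (min (I m).toReal (I (m + 1)).toReal) with hβ
  have hIr : Tendsto (fun m => (I m).toReal) atTop (𝓝 4) := by
    have h := (ENNReal.tendsto_toReal (by norm_num : (4 : ℝ≥0∞) ≠ ∞)).comp hD.dx_int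
    rw [ENNReal.toReal_ofNat] at h
    exact h
  have hβt : Tendsto β atTop (𝓝 4) := by
    have h1 := (tendsto_const_nhds (x := (4 : ℝ)) (f := atTop (α := ℕ))).min
      (hIr.min (hIr.comp (tendsto_add_atTop_nat 1)))
    simpa using h1
  have hβ0 : ∀ m, 0 ≤ β m := fun m =>
    le_min (by norm_num) (le_min ENNReal.toReal_nonneg ENNReal.toReal_nonneg)
  have hβ4 : ∀ m, β m ≤ 4 := fun m => min_le_left _ _
  have hβI : ∀ m, ENNReal.ofReal (β m) ≤ I m := fun m =>
    (ENNReal.ofReal_le_ofReal ((min_le_right _ _).trans (min_le_left _ _))).trans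
      ENNReal.ofReal_toReal_le
  have hβI' : ∀ m, ENNReal.ofReal (β m) ≤ I (m + 1) := fun m =>
    (ENNReal.ofReal_le_ofReal ((min_le_right _ _).trans (min_le_right _ _))).trans
      ENNReal.ofReal_toReal_le
  -- inequality for each m
  have key : ∀ m : ℕ, 2 ≤ m → ENNReal.ofReal ((4 * (m / (m + 1) : ℝ)) ^ n / n.factorial) ≤
      volume (QQ (Sum.elim b c)) * volume L +
        ENNReal.ofReal ((Fintype.card (Fin n → Fin n ⊕ κ)) * (4 ^ n - β m ^ n) /
          n.factorial) := by
    intro m hm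
    set p : Fin n ⊕ κ → ℕ := Sum.elim (fun _ => m) (fun _ => m + 1) with hp
    have hp2 : ∀ j, 2 ≤ p j := by
      rintro (j | j)
      · exact hm
      · show 2 ≤ m + 1
        omega
    have hpm : ∀ j, p j ≤ m + 1 := by
      rintro (j | j)
      · show m ≤ m + 1
        omega
      · exact le_rfl
    have hSp : (Sum.elim (fun _ => S m) (fun _ => S (m + 1)) : Fin n ⊕ κ → ℂ → ℝ) =
        fun j => S (p j) := by
      funext j
      rcases j with j | j <;> rfl
    set A : Fin n ⊕ κ → ℂ → ℝ := fun j u => 2 / Real.pi * (lap (S (p j)) u / (2 * p j)) with hA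
    set B : Fin n ⊕ κ → ℂ → ℝ := fun j u => |dx (S (p j)) u| with hB
    set R : Set (Fin n → ℂ) :=
      {z | z ∈ Om P (Sum.elim b c) ∧ GG (fun j => S (p j)) (Sum.elim b c) z < 1} with hR
    have hRo : IsOpen R := isOpen_R hD.isOpen _ _
      (fun j => (hD.psh (p j) (hp2 j)).smooth.continuousOn) 1
    have hmR : (1 : ℝ) ≤ m := by
      have : (1 : ℕ) ≤ m := by omega
      exact_mod_cast this
    have hAm : ∀ j, Measurable (A j) := fun j =>
      ((measurable_lap _).div_const _).const_mul _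
    have hBm : ∀ j, Measurable (B j) := fun j => (measurable_dx _).abs
    have hpi : 0 < Real.pi := Real.pi_pos
    have hα : ∀ j, ∫⁻ u in P, ENNReal.ofReal (A j u) = ENNReal.ofReal 4 := by
      intro j
      have h1 := hD.push (p j) (hp2 j) (fun _ => 1) measurable_const
      simp only [one_mul, lintegral_const, Measure.restrict_apply MeasurableSet.univ,
        univ_inter, Real.volume_Ioo, sub_zero, ENNReal.ofReal_one, mul_one] at h1
      have h2 : ∀ u, ENNReal.ofReal (A j u) = ENNReal.ofReal (2 / Real.pi) *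
          ENNReal.ofReal (lap (S (p j)) u / (2 * p j)) := by
        intro u
        rw [← ENNReal.ofReal_mul (by positivity)]
      simp only [h2]
      rw [lintegral_const_mul _ (((measurable_lap _).div_const _).ennreal_ofReal), h1,
        ← ENNReal.ofReal_mul (by positivity)]
      congr 1
      field_simp
      norm_num
    have hβj : ∀ j, ENNReal.ofReal (β m) ≤ ∫⁻ u in P, ENNReal.ofReal (B j u) := by
      rintro (j | j)
      · exact hβI m
      · exact hβI' m
    have h1 := hE2 A B hAm hBm (fun j u _ => abs_nonneg _)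
      (fun j u hu => hD.dx_le (p j) (hp2 j) u hu) 4 (β m) (hβ0 m) (hβ4 m) hα hβj R
      hRo.measurableSet (fun z hz => hz.1)
    have h2 := hD2 p hp2
    have h3 := hC4 m hm
    rw [hSp] at h3
    -- comparison of the two determinants
    have h4 : ∀ z ∈ R, (MM (fun j => lap (S (p j))) (Sum.elim b c) z).det ≤
        (Real.pi * (m + 1)) ^ n * (MM A (Sum.elim b c) z).det := by
      intro z hz
      unfold MM
      rw [← det_mat_smul]
      refine det_mat_mono hE1 _ _ _ (fun j => (hD.psh (p j) (hp2 j)).lap_nonneg _ (hz.1 j))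
        fun j => ?_
      have hl := (hD.psh (p j) (hp2 j)).lap_nonneg _ (hz.1 j)
      simp only [hA]
      set l := lap (S (p j)) (uu (Sum.elim b c j) z) with hldef
      have hpj : (1 : ℝ) ≤ p j := by
        have := hp2 j
        have : (1 : ℕ) ≤ p j := by omega
        exact_mod_cast this
      have hpj2 : (p j : ℝ) ≤ m + 1 := by exact_mod_cast hpm j
      have e1 : Real.pi * (m + 1) * (2 / Real.pi * (l / (2 * p j))) = l * ((m + 1) / p j) := by
        field_simp
      rw [e1]
      have e2 : (1 : ℝ) ≤ (m + 1) / p j := by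
        rw [le_div_iff₀ (by linarith)]
        linarith
      nlinarith
    have h5 : VV P (fun j => S (p j)) (Sum.elim b c) 1 ≤
        ENNReal.ofReal ((Real.pi * (m + 1)) ^ n) *
          ∫⁻ z in R, ENNReal.ofReal (MM A (Sum.elim b c) z).det := by
      rw [← lintegral_const_mul' _ _ ENNReal.ofReal_ne_top]
      unfold VV
      refine setLIntegral_mono' hRo.measurableSet fun z hz => ?_
      rw [← ENNReal.ofReal_mul (by positivity)]
      exact ENNReal.ofReal_le_ofReal (h4 z hz)
    have h6 : ENNReal.ofReal ((4 * (m / (m + 1) : ℝ)) ^ n / n.factorial) ≤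
        ∫⁻ z in R, ENNReal.ofReal (MM A (Sum.elim b c) z).det := by
      have h7 := h3.trans h5
      have hc0 : (0 : ℝ) < (Real.pi * (m + 1)) ^ n := by positivity
      have h8 : ENNReal.ofReal ((4 * Real.pi * m) ^ n / n.factorial) =
          ENNReal.ofReal ((Real.pi * (m + 1)) ^ n) *
            ENNReal.ofReal ((4 * (m / (m + 1) : ℝ)) ^ n / n.factorial) := by
        rw [← ENNReal.ofReal_mul hc0.le]
        congr 1
        rw [← mul_div_assoc, ← mul_pow]
        congr 2
        field_simp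
      rw [h8] at h7
      exact (ENNReal.mul_le_mul_iff_right (ENNReal.ofReal_pos.2 hc0).ne'
        ENNReal.ofReal_ne_top).1 h7
    exact h6.trans (h1.trans (by gcongr))
  -- limit
  have hl1 : Tendsto (fun m : ℕ => ENNReal.ofReal ((4 * (m / (m + 1) : ℝ)) ^ n / n.factorial))
      atTop (𝓝 (ENNReal.ofReal (4 ^ n / n.factorial))) := by
    refine ENNReal.tendsto_ofReal ?_
    have h1 : Tendsto (fun m : ℕ => (m / (m + 1) : ℝ)) atTop (𝓝 1) :=
      tendsto_natCast_div_add_atTop 1
    have h2 := ((h1.const_mul 4).pow n).div_const (n.factorial : ℝ)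
    simpa using h2
  have hl2 : Tendsto (fun m : ℕ => volume (QQ (Sum.elim b c)) * volume L +
        ENNReal.ofReal ((Fintype.card (Fin n → Fin n ⊕ κ)) * (4 ^ n - β m ^ n) /
          n.factorial)) atTop (𝓝 (volume (QQ (Sum.elim b c)) * volume L)) := by
    have h1 : Tendsto (fun m : ℕ => (Fintype.card (Fin n → Fin n ⊕ κ)) * (4 ^ n - β m ^ n) /
          n.factorial) atTop (𝓝 0) := by
      have h2 := (((tendsto_const_nhds (x := (4 : ℝ) ^ n)).sub (hβt.pow n)).const_mul
        (Fintype.card (Fin n → Fin n ⊕ κ) : ℝ)).div_const (n.factorial : ℝ)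
      simpa using h2
    have h3 := ENNReal.tendsto_ofReal h1
    rw [ENNReal.ofReal_zero] at h3
    have h4 := (tendsto_const_nhds (x := volume (QQ (Sum.elim b c)) * volume L)
      (f := atTop (α := ℕ))).add h3
    rwa [add_zero] at h4
  exact le_of_tendsto_of_tendsto hl1 hl2 (eventually_atTop.2 ⟨2, key⟩)

end Pool.Agent.H224R2.Mah
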